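import Pool.Agent.helper5.SYM.SpecB

/-!
# Project ih (MP_45d809_mp): Hamiltonian cycles of the interlace graph - definitions

THEOREM (project). Let `G` be a 4-regular graph with at least 6 vertices and let `p` be an Eulerian
closed walk of `G`. The INTERLACE GRAPH of `p`: two vertices are adjacent if they alternate along
`p` (every vertex is passed twice). For every vertex `v` the invariant `c_2` of `G - v` at `q = 2` is
the number of Hamiltonian cycles of the interlace graph, modulo 2.
-/

set_option autoImplicit false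

namespace Pool.Agent.IH
open Finset CT SYM

/-! ### Graphs and words -/

section graphs
variable {V : Type}

/-- The number of Hamiltonian cycles: connected spanning subgraphs in which every vertex has
exactly two neighbours. -/
noncomputable def numHam (H : SimpleGraph V) : ℕ :=
  Nat.card {F : SimpleGraph V // F ≤ H ∧ F.Connected ∧ ∀ v, Nat.card {w // F.Adj v w} = 2}

/-- The interlace graph of a closed walk: `v` and `w` are adjacent if they occur in the order
`v, w, v, w` or `w, v, w, v` (the end of the walk is not counted as an occurrence). -/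
def interlaceGraph {G : SimpleGraph V} {u : V} (p : G.Walk u u) : SimpleGraph V :=
  SimpleGraph.fromRel fun v w => ∃ i j k l, i < j ∧ j < k ∧ k < l ∧ l < p.length ∧
    p.getVert i = v ∧ p.getVert j = w ∧ p.getVert k = v ∧ p.getVert l = w

/-- The interlace graph of a word. -/
def IG (m : ℕ) (q : ℕ → V) : SimpleGraph V :=
  SimpleGraph.fromRel fun v w => ∃ i j k l, i < j ∧ j < k ∧ k < l ∧ l < m ∧
    q i = v ∧ q j = w ∧ q k = v ∧ q l = w

/-- `q 0, q 1, ..., q m = q 0` is an Eulerian closed walk of `G`. -/
structure EW (G : SimpleGraph V) (m : ℕ) (q : ℕ → V) : Prop where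
  pos : 0 < m
  per : ∀ i, q (i + m) = q i
  adj : ∀ i, G.Adj (q i) (q (i + 1))
  inj : ∀ i < m, ∀ j < m, s(q i, q (i + 1)) = s(q j, q (j + 1)) → i = j
  sur : ∀ u w, G.Adj u w → ∃ i < m, s(q i, q (i + 1)) = s(u, w)

/-- `a v < b v` are the two positions of `v`. -/
structure Pos (m : ℕ) (q : ℕ → V) (a b : V → ℕ) : Prop where
  lt : ∀ v, a v < b v ∧ b v < m
  val : ∀ v, q (a v) = v ∧ q (b v) = v
  uni : ∀ i < m, i = a (q i) ∨ i = b (q i)

/-- The dart by which the walk arrives at position `i`: `0` at the first passage, `3` at the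
second. -/
def inD (m : ℕ) (q : ℕ → V) (a : V → ℕ) (i : ℕ) : V × Fin 4 :=
  (q i, if i % m = a (q i) then 0 else 3)

/-- The dart by which the walk leaves position `i`: `1` at the first passage, `2` at the
second. -/
def outD (m : ℕ) (q : ℕ → V) (a : V → ℕ) (i : ℕ) : V × Fin 4 :=
  (q i, if i % m = a (q i) then 1 else 2)

end graphs

/-! ### Matchings and permutations -/

section perms
variable {V : Type}

/-- `σ` fixes `v` if `t v = 0` and moves `v` if `t v = 1` (no condition if `t v = 2`). -/
def Cp (t : V → Fin 3) (σ : Equiv.Perm V) : Prop := ∀ v, (t v = 0 → σ v = v) ∧ (t v = 1 → σ v ≠ v)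

/-- Matchings of `H` as involutions. -/
def Mt (H : SimpleGraph V) (σ : Equiv.Perm V) : Prop :=
  (∀ v, σ (σ v) = v) ∧ ∀ v, σ v ≠ v → H.Adj v (σ v)

/-- The number of matchings compatible with `t`. -/
noncomputable def mu (H : SimpleGraph V) (t : V → Fin 3) : ℕ :=
  Nat.card {σ : Equiv.Perm V // Mt H σ ∧ Cp t σ}

/-- A path of `H` from `x` to `y` (the cycle of `y` is `y, x = σ y, ..., y`) and a matching of other
vertices. -/
def Pt (H : SimpleGraph V) (x y : V) (σ : Equiv.Perm V) : Prop :=
  σ y = x ∧ (∀ w, w ≠ y → σ w ≠ w → H.Adj w (σ w)) ∧ ∀ w, ¬ σ.SameCycle y w → σ (σ w) = w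

/-- The number of these compatible with `t`. -/
noncomputable def pc (H : SimpleGraph V) (x y : V) (t : V → Fin 3) : ℕ :=
  Nat.card {σ : Equiv.Perm V // Pt H x y σ ∧ Cp t σ}

/-- The number of Hamiltonian paths of `H - v` from `x` to `y`. -/
noncomputable def Hp (H : SimpleGraph V) (v x y : V) : ℕ :=
  Nat.card {σ : Equiv.Perm V // σ v = v ∧ σ y = x ∧ (∀ w, w ≠ v → w ≠ y → H.Adj w (σ w)) ∧
    ∀ w, w ≠ v → σ.SameCycle y w}

/-- The number of directed Hamiltonian cycles of `H`. -/
noncomputable def Hc (H : SimpleGraph V) : ℕ :=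
  Nat.card {σ : Equiv.Perm V // (∀ w, H.Adj w (σ w)) ∧ ∀ u w, σ.SameCycle u w}

/-- Pairs (matching, path and matching) of `H - v` covering every vertex exactly once. -/
noncomputable def PP (H : SimpleGraph V) (v x y : V) : ℕ :=
  Nat.card {p : Equiv.Perm V × Equiv.Perm V // p.1 v = v ∧ p.2 v = v ∧ Mt H p.1 ∧
    Pt H x y p.2 ∧ ∀ w, w ≠ v → ¬ (p.1 w = w ↔ p.2 w = w)}

/-- The number of `t` vanishing on `S` such that the number of compatible matchings is odd. -/
noncomputable def nS (H : SimpleGraph V) (S : Finset V) : ℕ :=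
  Nat.card {t : V → Fin 3 // (∀ v ∈ S, t v = 0) ∧ Odd (mu H t)}

variable [DecidableEq V]

/-- `t` vanishes on `S` and at `v`, `mu` is even, and odd if `t v` is changed to 1. -/
noncomputable def al (H : SimpleGraph V) (S : Finset V) (v : V) : ℕ :=
  Nat.card {t : V → Fin 3 // (∀ w ∈ insert v S, t w = 0) ∧ Even (mu H t) ∧
    Odd (mu H (Function.update t v 1))}

/-- The condition `t x ≠ 0` and `mu` is odd if `t x` is changed to 0. -/
def Gx (H : SimpleGraph V) (t : V → Fin 3) (x : V) : Prop :=
  t x ≠ 0 ∧ Odd (mu H (Function.update t x 0))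

/-- The number of `t` with `t v = 0`, `mu` even and `Gx` for `x` and `y`. -/
noncomputable def Bc (H : SimpleGraph V) (v x y : V) : ℕ :=
  Nat.card {t : V → Fin 3 // t v = 0 ∧ Even (mu H t) ∧ Gx H t x ∧ Gx H t y}

open Classical in
/-- The matrix of the state `t`. -/
noncomputable def MM (H : SimpleGraph V) (t : V → Fin 3) : Matrix V V (ZMod 2) :=
  Matrix.of fun v w => if v = w then (if t v = 1 then 0 else 1) else
    if H.Adj v w ∧ t v ≠ 0 ∧ t w ≠ 0 then 1 else 0

open Classical in
/-- The kernel vectors of the state `t`. -/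
def Kz [Fintype V] (H : SimpleGraph V) (t : V → Fin 3) (z : V → ZMod 2) : Prop :=
  ∀ v, (t v = 0 → z v = 0) ∧
    (t v ≠ 0 → (∑ w, if H.Adj v w then z w else 0) = if t v = 2 then z v else 0)

end perms

/-! ### Transition systems and rotation systems -/

section systems
variable {V : Type} {G : SimpleGraph V}

/-- The number of circuits of a transition system. -/
noncomputable def nci (τ : G.Dart → G.Dart) : ℕ := gav τ (fun _ => False)

/-- `τ` is the transition system of the word `q`. -/
def Fol (q : ℕ → V) (τ : G.Dart → G.Dart) : Prop :=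
  ∀ (i : ℕ) (d d' : G.Dart), d.fst = q (i + 1) → d.snd = q i → d'.fst = q (i + 1) →
    d'.snd = q (i + 2) → τ d = d'

/-- A partition of the edge set into `b` nonempty even subgraphs (`c` is the number of the
class). -/
def EvenPartition (G : SimpleGraph V) (b : ℕ) (c : Sym2 V → Fin b) : Prop :=
  (∀ i, ∃ u w, G.Adj u w ∧ c s(u, w) = i) ∧
    ∀ i v, Even (Nat.card {w // G.Adj v w ∧ c s(v, w) = i})

/-- A rotation system of a 4-regular graph: a cyclic order of the four darts at every vertex. -/
structure Rot (ρ : G.Dart → G.Dart) : Prop where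
  fst : ∀ d, (ρ d).fst = d.fst
  four : ∀ d, ρ (ρ (ρ (ρ d))) = d
  two : ∀ d, ρ (ρ d) ≠ d

/-- The faces of a rotation system: the orbits of the map `d ↦ ρ d.symm`. -/
def Face (ρ : G.Dart → G.Dart) : Type := Quot fun d d' : G.Dart => d' = ρ d.symm

/-- A proper 2-colouring of the faces (a function on darts, constant on faces, with different
values on the two sides of every edge). -/
def FaceCol (ρ : G.Dart → G.Dart) (f : G.Dart → Bool) : Prop :=
  (∀ d, f (ρ d.symm) = f d) ∧ ∀ d, f d.symm ≠ f d

/-- The number of faces of colour `c`. -/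
noncomputable def nfc (ρ : G.Dart → G.Dart) (f : G.Dart → Bool) (c : Bool) : ℕ :=
  Nat.card {F : Face ρ // ∃ d : G.Dart, Quot.mk _ d = F ∧ f d = c}

end systems

end Pool.Agent.IH
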