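import Pool.Agent.helper5.IH.Spec

set_option autoImplicit false

namespace Pool.Agent.IH
open Finset CT SYM

theorem MU1_swap_inv {V : Type} [DecidableEq V] (H : SimpleGraph V) (t : V → Fin 3) (v x : V)
    (hv : t v = 0) (hx : H.Adj v x ∧ t x ≠ 0) (σ : Equiv.Perm V) :
    (Mt H σ ∧ Cp (Function.update t x 0) σ) ↔
      (Mt H (σ * Equiv.swap v x) ∧ Cp (Function.update t v 1) (σ * Equiv.swap v x)) ∧
        (σ * Equiv.swap v x) v = x := by
  have hvx : v ≠ x := hx.1.ne
  constructor
  · rintro ⟨⟨h1, h2⟩, h3⟩
    have hfx : σ x = x := (h3 x).1 (by simp)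
    have hfv : σ v = v := (h3 v).1 (by rw [Function.update_of_ne hvx]; exact hv)
    have ev : (σ * Equiv.swap v x) v = x := by simp [hfx]
    have ex : (σ * Equiv.swap v x) x = v := by simp [hfv]
    have eo : ∀ w, w ≠ v → w ≠ x → (σ * Equiv.swap v x) w = σ w := by
      intro w hw hw'
      rw [Equiv.Perm.mul_apply, Equiv.swap_apply_of_ne_of_ne hw hw']
    have hne : ∀ w, w ≠ v → w ≠ x → σ w ≠ v ∧ σ w ≠ x := by
      intro w hw hw'
      refine ⟨fun h => hw ?_, fun h => hw' ?_⟩
      · exact σ.injective (h.trans hfv.symm)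
      · exact σ.injective (h.trans hfx.symm)
    refine ⟨⟨⟨?_, ?_⟩, ?_⟩, ev⟩
    · intro w
      by_cases hw : w = v
      · rw [hw, ev, ex]
      · by_cases hw' : w = x
        · rw [hw', ex, ev]
        · rw [eo w hw hw', eo _ (hne w hw hw').1 (hne w hw hw').2, h1]
    · intro w hw2
      by_cases hw : w = v
      · rw [hw, ev]; exact hx.1
      · by_cases hw' : w = x
        · rw [hw', ex]; exact hx.1.symm
        · rw [eo w hw hw'] at hw2 ⊢
          exact h2 w hw2
    · intro w
      by_cases hw : w = v
      · subst hw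
        rw [Function.update_self, ev]
        exact ⟨fun h => absurd h (by decide), fun _ => hvx.symm⟩
      · rw [Function.update_of_ne hw]
        by_cases hw' : w = x
        · rw [hw', ex]
          exact ⟨fun h => absurd h hx.2, fun _ => hvx⟩
        · rw [eo w hw hw']
          have := h3 w
          rw [Function.update_of_ne hw'] at this
          exact this
  · rintro ⟨⟨⟨h1, h2⟩, h3⟩, ev⟩
    have hfx : σ x = x := by simpa using ev
    have ex : (σ * Equiv.swap v x) x = v := by
      have := h1 v
      rw [ev] at this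
      exact this
    have hfv : σ v = v := by simpa using ex
    have eo : ∀ w, w ≠ v → w ≠ x → (σ * Equiv.swap v x) w = σ w := by
      intro w hw hw'
      rw [Equiv.Perm.mul_apply, Equiv.swap_apply_of_ne_of_ne hw hw']
    have hne : ∀ w, w ≠ v → w ≠ x → σ w ≠ v ∧ σ w ≠ x := by
      intro w hw hw'
      refine ⟨fun h => hw ?_, fun h => hw' ?_⟩
      · exact σ.injective (h.trans hfv.symm)
      · exact σ.injective (h.trans hfx.symm)
    refine ⟨⟨?_, ?_⟩, ?_⟩
    · intro w
      by_cases hw : w = v
      · rw [hw, hfv, hfv]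
      · by_cases hw' : w = x
        · rw [hw', hfx, hfx]
        · have := h1 w
          rw [eo w hw hw', eo _ (hne w hw hw').1 (hne w hw hw').2] at this
          exact this
    · intro w hw2
      by_cases hw : w = v
      · rw [hw, hfv] at hw2; exact absurd rfl hw2
      · by_cases hw' : w = x
        · rw [hw', hfx] at hw2; exact absurd rfl hw2
        · have := h2 w
          rw [eo w hw hw'] at this
          exact this hw2
    · intro w
      by_cases hw' : w = x
      · subst hw'
        rw [Function.update_self, hfx]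
        exact ⟨fun _ => rfl, fun h => absurd h (by decide)⟩
      · rw [Function.update_of_ne hw']
        by_cases hw : w = v
        · rw [hw, hfv, hv]
          exact ⟨fun _ => rfl, fun h => absurd h (by decide)⟩
        · have := h3 w
          rw [Function.update_of_ne hw, eo w hw hw'] at this
          exact this

theorem MU1 : MU1_stmt := by
  classical
  intro V _ _ H t v hv
  unfold mu
  rw [Nat.card_eq_fintype_card, Fintype.card_subtype]
  rw [Finset.card_eq_sum_card_fiberwise (f := fun σ : Equiv.Perm V => σ v) (t := univ)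
    (fun _ _ => mem_univ _)]
  refine Finset.sum_congr rfl fun x _ => ?_
  by_cases hx : H.Adj v x ∧ t x ≠ 0
  · rw [if_pos hx, Nat.card_eq_fintype_card, Fintype.card_subtype]
    symm
    refine Finset.card_bij (fun σ _ => σ * Equiv.swap v x) ?_ ?_ ?_
    · intro σ hσ
      rw [mem_filter] at hσ
      rw [mem_filter, mem_filter]
      have := (MU1_swap_inv H t v x hv hx σ).1 hσ.2
      exact ⟨⟨mem_univ _, this.1⟩, this.2⟩
    · intro σ _ τ _ h
      exact mul_right_cancel h
    · intro ρ hρ
      rw [mem_filter, mem_filter] at hρ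
      refine ⟨ρ * Equiv.swap v x, ?_, by rw [mul_assoc, Equiv.swap_mul_self, mul_one]⟩
      rw [mem_filter]
      refine ⟨mem_univ _, (MU1_swap_inv H t v x hv hx _).2 ?_⟩
      rw [mul_assoc, Equiv.swap_mul_self, mul_one]
      exact ⟨hρ.1.2, hρ.2⟩
  · rw [if_neg hx, Finset.card_eq_zero]
    ext σ
    simp only [mem_filter, mem_univ, true_and, notMem_empty, iff_false]
    rintro ⟨⟨⟨h1, h2⟩, h3⟩, h4⟩
    have hm : σ v ≠ v := (h3 v).2 (by rw [Function.update_self])
    apply hx
    refine ⟨h4 ▸ h2 v hm, fun h => ?_⟩
    have hxv : x ≠ v := h4 ▸ hm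
    have h5 := (h3 x).1 (by rw [Function.update_of_ne hxv]; exact h)
    have h6 := h1 v
    rw [h4, h5] at h6
    exact hxv h6

end Pool.Agent.IH
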