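import Pool.Agent.helper5.IH.Spec
import Pool.Agent.helper56.CT.Fin1
import Pool.Agent.helper89.CT.JZ5

set_option autoImplicit false

namespace Pool.Agent.IH
open Finset CT SYM Polynomial

theorem N8C_sum {α : Type} (S : Finset α) (f : α → ℕ) :
    (4 : ℤ) ∣ ∑ t ∈ S, (-4 : ℤ) ^ f t - ((S.filter fun t => f t = 0).card : ℤ) := by
  rw [Finset.card_filter]
  push_cast
  rw [← Finset.sum_sub_distrib]
  refine Finset.dvd_sum fun t _ => ?_
  rcases Nat.eq_zero_or_pos (f t) with h | h
  · rw [h]; simp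
  · rw [if_neg (by omega), sub_zero]
    obtain ⟨k, hk⟩ := Nat.exists_eq_succ_of_ne_zero (Nat.pos_iff_ne_zero.1 h)
    rw [hk, pow_succ]
    exact ⟨-(-4) ^ k, by ring⟩

theorem N8C_coeff {ι : Type*} (s : Finset ι) (f : ι → ℕ) (n : ℕ) :
    (∑ t ∈ s, (X : ℤ[X]) ^ f t).coeff n = ((s.filter fun t => f t = n).card : ℤ) := by
  rw [Polynomial.finsetSum_coeff, Finset.card_filter]
  push_cast
  refine Finset.sum_congr rfl fun t _ => ?_
  rw [Polynomial.coeff_X_pow]
  by_cases h : n = f t
  · rw [if_pos h, if_pos h.symm]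
  · rw [if_neg h, if_neg (Ne.symm h)]

theorem N8C_count (hZPF : SYM.ZPF_stmt) {V : Type} [Fintype V] [DecidableEq V] (v : V)
    (L : List V) (e : V × Fin 4 → V × Fin 4) (hL : L.Nodup) (hv : v ∉ L)
    (hA : Act (dts (insert v L.toFinset)) e) :
    ((pf (L ++ [v]).toFinset).filter fun t => lps (L ++ [v]) e t = 1).card =
      2 * ((pf L.toFinset).filter fun t => lps L e t = 0).card := by
  have hL' : (L ++ [v]).Nodup := by
    rw [List.nodup_append]
    refine ⟨hL, List.nodup_singleton v, ?_⟩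
    intro a ha b hb hab
    rw [List.mem_singleton] at hb
    subst hb
    subst hab
    exact hv ha
  have hp : (∑ t ∈ pf (L ++ [v]).toFinset, (X : ℤ[X]) ^ lps (L ++ [v]) e t) =
      (X ^ 2 + 2 * X) * ∑ t ∈ pf L.toFinset, (X : ℤ[X]) ^ lps L e t := by
    apply Polynomial.funext
    intro x
    have h1 := hZPF V x (L ++ [v]) e hL'
    have h2 := hZPF V x L e hL
    have h3 := CT.JZ5 V x v L e hL hv hA
    rw [h1, h2] at h3
    simp only [Polynomial.eval_finsetSum, Polynomial.eval_mul, Polynomial.eval_add,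
      Polynomial.eval_pow, Polynomial.eval_X, Polynomial.eval_ofNat]
    exact h3
  have hc := congrArg (fun p : ℤ[X] => p.coeff 1) hp
  beta_reduce at hc
  rw [N8C_coeff] at hc
  have hr : ((X ^ 2 + 2 * X) * ∑ t ∈ pf L.toFinset, (X : ℤ[X]) ^ lps L e t).coeff 1 =
      2 * (∑ t ∈ pf L.toFinset, (X : ℤ[X]) ^ lps L e t).coeff 0 := by
    generalize (∑ t ∈ pf L.toFinset, (X : ℤ[X]) ^ lps L e t) = q
    rw [add_mul, Polynomial.coeff_add]
    have a1 : ((X : ℤ[X]) ^ 2 * q).coeff 1 = 0 := by
      rw [Polynomial.coeff_X_pow_mul']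
      simp
    have a2 : ((2 * X : ℤ[X]) * q).coeff 1 = 2 * q.coeff 0 := by
      have e2 : (2 * X : ℤ[X]) * q = C 2 * (X * q) := by
        rw [show (C 2 : ℤ[X]) = 2 from rfl]
        ring
      rw [e2, Polynomial.coeff_C_mul]
      rw [Polynomial.coeff_X_mul q 0]
    rw [a1, a2, zero_add]
  rw [hr, N8C_coeff] at hc
  exact_mod_cast hc

theorem N8C (hZPF : SYM.ZPF_stmt) : N8C_stmt := by
  classical
  intro V _ _ G v e L hG hn he h1 h2 h3 hL hLs
  have hG' : G.IsRegularOfDegree 4 := by
    intro u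
    rw [← hG u, Nat.card_eq_fintype_card, ← SimpleGraph.card_neighborSet_eq_degree]
    rfl
  have hv : v ∉ L := by
    intro h
    have : v ∈ L.toFinset := List.mem_toFinset.2 h
    rw [hLs] at this
    simp at this
  have hins : insert v L.toFinset = univ := by rw [hLs]; exact Finset.insert_erase (mem_univ v)
  have hlen : L.length + 1 = Fintype.card V := by
    have := List.toFinset_card_of_nodup hL
    rw [← this, hLs, Finset.card_erase_of_mem (mem_univ v), Finset.card_univ]
    omega
  have hact : Act (dts (insert v L.toFinset)) e := by rw [hins]; exact he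
  have c0 := core fE1 fE2 fE4 fB5 fJC3 G v hG' (by omega) (card_edges V G v hG' (by omega)) e he
    h1 h2 h3 L hL hLs
  have c1 := JZ5 V (-4) v L e hL hv hact
  have hLv : (L ++ [v]).Nodup := by
    rw [List.nodup_append]
    refine ⟨hL, by simp, ?_⟩
    intro a ha b hb hab
    simp only [List.mem_singleton] at hb
    rw [hb] at hab
    rw [hab] at ha
    exact hv ha
  have hLvs : (L ++ [v]).toFinset = insert v L.toFinset := by
    rw [List.toFinset_append]
    ext w
    simp
  have c3 := fJC1 V (L ++ [v]) e hLv (by rw [List.length_append]; simp; omega)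
    (by rw [hLvs]; exact hact)
  have s4 := N8C_sum (pf L.toFinset) (fun t => lps L e t)
  rw [← hZPF V (-4) L e hL] at s4
  have hcnt := N8C_count hZPF v L e hL hv hact
  have hN : Nat.card {t : V → Fin 3 // lps (L ++ [v]) e t = 1} =
      ((pf (L ++ [v]).toFinset).filter fun t => lps (L ++ [v]) e t = 1).card := by
    rw [Nat.card_eq_fintype_card, Fintype.card_subtype]
    congr 1
    ext t
    simp only [mem_filter, mem_univ, true_and]
    constructor
    · intro h
      refine ⟨?_, h⟩
      unfold pf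
      rw [Fintype.mem_piFinset]
      intro w
      rw [hLvs, hins]
      simp
    · intro h
      exact h.2
  rw [hN, hcnt]
  rw [c1] at c0 c3
  generalize ((pf L.toFinset).filter fun t => lps L e t = 0).card = a0 at s4
  generalize Z (-4) L e = z4 at *
  norm_num at c0 c3
  have hz2 : (2 : ℤ) ∣ z4 := by omega
  have ha2 : 2 ∣ a0 := by omega
  obtain ⟨b, rfl⟩ := ha2
  refine ⟨⟨b, by ring⟩, ?_⟩
  have h4 : 2 * (2 * b) / 4 = b := by omega
  rw [h4]
  have h8 : (8 : ℤ) ∣ (numZeros (decompletion G v) (ZMod 2) : ℤ) - 4 * (b : ℤ) := by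
    push_cast at s4
    omega
  have hX4 : 4 ∣ numZeros (decompletion G v) (ZMod 2) := by omega
  obtain ⟨k, hk⟩ := hX4
  have hc2 : Nat.card (ZMod 2) = 2 := by simp
  refine ⟨k, ?_, ?_⟩
  · rw [hk, hc2]; norm_num
  · rw [hc2, Int.modEq_iff_dvd]
    rw [hk] at h8
    push_cast at h8 ⊢
    omega

end Pool.Agent.IH
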