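import Pool.Agent.helper5.SYM.Main
import Pool.Agent.helper1.IH.HAM1
import Pool.Agent.helper1.IH.HAM2
import Pool.Agent.helper1.IH.PR1
import Pool.Agent.helper1.IH.TR3
import Pool.Agent.helper16.IH.CMP
import Pool.Agent.helper16.IH.DET
import Pool.Agent.helper16.IH.IND
import Pool.Agent.helper16.IH.KER
import Pool.Agent.helper17.IH.NS24
import Pool.Agent.helper25.IH.MU2
import Pool.Agent.helper25.IH.TP1
import Pool.Agent.helper30.IH.N1H
import Pool.Agent.helper32.IH.MNC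
import Pool.Agent.helper32.IH.WEU
import Pool.Agent.helper34.IH.DEC2
import Pool.Agent.helper34.IH.EUW
import Pool.Agent.helper35.IH.PTH
import Pool.Agent.helper37.IH.SWP
import Pool.Agent.helper39.IH.BHP
import Pool.Agent.helper41.IH.TP2
import Pool.Agent.helper44.IH.HPC
import Pool.Agent.helper46.IH.TPQ
import Pool.Agent.helper47.IH.FORM
import Pool.Agent.helper47.IH.LBW
import Pool.Agent.helper48.IH.MIN
import Pool.Agent.helper49.IH.MRV
import Pool.Agent.helper49.IH.OD4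
import Pool.Agent.helper5.IH.MU1
import Pool.Agent.helper5.IH.N8C
import Pool.Agent.helper50.IH.HPS
import Pool.Agent.helper54.IH.MRG
import Pool.Agent.helper63.IH.EMB
import Pool.Agent.helper71.IH.EXW
import Pool.Agent.helper72.IH.N1W
import Pool.Agent.helper72.IH.NSD
import Pool.Agent.helper74.IH.IDP
import Pool.Agent.helper75.IH.TRX
import Pool.Agent.helper78.IH.POS
import Pool.Agent.helper8.IH.TR2
import Pool.Agent.helper81.IH.JAC
import Pool.Agent.helper82.IH.BXY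
import Pool.Agent.helper83.IH.GXC
import Pool.Agent.helper89.IH.SG1
import Pool.Agent.helper89.IH.TLO
import Pool.Agent.helper90.IH.EWW
import Pool.Agent.helper91.IH.HC2
import Pool.Agent.helper97.IH.ADX
import Pool.Agent.helper99.IH.ADJ
import Pool.Agent.helper99.IH.ALR
import Pool.Agent.helper99.IH.SG2

/-!
# Project ih: assembly
-/

set_option autoImplicit false

namespace Pool.Agent.IH
open Finset CT

theorem fMU2 : MU2_stmt := MU2
theorem fMU1 : MU1_stmt := MU1
theorem fDET : DET_stmt := DET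
theorem fADX : ADX_stmt := ADX fDET
theorem fJAC : JAC_stmt := JAC
theorem fPTH : PTH_stmt := PTH
theorem fCMP : CMP_stmt := CMP
theorem fNSD : NSD_stmt := NSD fMU2
theorem fALR : ALR_stmt := ALR fMU1
theorem fGXC : GXC_stmt := GXC fMU2
theorem fOD4 : OD4_stmt := OD4
theorem fNS24 : NS24_stmt := NS24 fNSD fALR fGXC
theorem fBXY : BXY_stmt := BXY fDET fADX fJAC fPTH
theorem fSG1 : SG1_stmt := SG1 fCMP
theorem fSG2 : SG2_stmt := SG2 fCMP
theorem fSWP : SWP_stmt := SWP
theorem fBHP : BHP_stmt := BHP fBXY fSG1 fSG2 fSWP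
theorem fHPS : HPS_stmt := HPS
theorem fHPC : HPC_stmt := HPC
theorem fN1H : N1H_stmt := N1H fNSD fALR fGXC fOD4 fNS24 fBHP fHPS fHPC
theorem fHC2 : HC2_stmt := HC2
theorem fWEU : WEU_stmt := WEU
theorem fPOS : POS_stmt := POS
theorem fEMB : EMB_stmt := EMB
theorem fLBW : LBW_stmt := LBW
theorem fKER : KER_stmt := KER fDET
theorem fN8C : N8C_stmt := N8C SYM.fZPF
theorem fN1W : N1W_stmt := N1W fPOS fEMB fLBW fKER fN8C SYM.fLB0
theorem fFORM : FORM_stmt := FORM fN1W fN1H fHC2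
theorem fTRX : TRX_stmt := TRX SYM.fLBF
theorem fMRG : MRG_stmt := MRG SYM.fLBF
theorem fMIN : MIN_stmt := MIN fMRG
theorem fEUW : EUW_stmt := EUW
theorem fIDP : IDP_stmt := IDP fPOS fEMB fTRX fLBW
theorem fIND : IND_stmt := IND
theorem fMRV : MRV_stmt := MRV SYM.fLBF
theorem fDEC2 : DEC2_stmt := DEC2
theorem fMNC : MNC_stmt := MNC fMRV fDEC2
theorem fADJ : ADJ_stmt := ADJ fPOS fEMB fTRX fLBW fIDP
theorem fHAM1 : HAM1_stmt := HAM1
theorem fHAM2 : HAM2_stmt := HAM2
theorem fTPQ : TPQ_stmt := TPQ SYM.fCNX fMIN fEUW fIDP fFORM fMNC fADJ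
theorem fTP1 : TP1_stmt := TP1 fTPQ fHAM1
theorem fTP2 : TP2_stmt := TP2 fTPQ fHAM1 fHAM2
theorem fTLO : TLO_stmt := TLO fTP1
theorem fTR2 : TR2_stmt := TR2 fTLO fTP2
theorem fPR1 : PR1_stmt := PR1
theorem fTR3 : TR3_stmt := TR3 fTR2 fPR1
theorem fEWW : EWW_stmt := EWW
theorem fEXW : EXW_stmt := EXW fMIN fEUW fEWW

end Pool.Agent.IH
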