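import Pool.Agent.helper5.IH.Defs

/-!
# Project ih (MP_45d809_mp): c_2 at q = 2 and Hamiltonian cycles of the interlace graph

Plan. `H` = interlace graph of an Eulerian closed walk. The transition systems of `G` correspond to
the functions `t : V → Fin 3` (0: follow the walk, 1: the other pairing which respects the
orientation, 2: the third pairing). The system `t` has `1 + dim (Kz H t)` circuits (LBW), so it has one
circuit iff the symmetric matrix `MM H t` over `ZMod 2` is invertible, iff the number `mu H t` of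
matchings of `H` compatible with `t` is odd (DET). If `N` is the number of these `t` then `4 ∣ N` and
`c_2` is `N / 4` mod 2 (N8C, from project ct). Blocks A and B: `N ≡ 4 * (number of Hamiltonian
cycles of H)` mod 8 for EVERY graph `H` with at least 5 vertices.

All statements of blocks A, B were checked by computer for many graphs with 3, 4, 5 vertices, LBW for
random words, the theorem for all graphs `H` with at most 6 vertices and for 2000 random 4-regular
graphs.

`Function.update t x 0` is written `t[x := 0]` in the comments.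
-/

set_option autoImplicit false

namespace Pool.Agent.IH
open Finset CT SYM

/-! ## A. Matchings and matrices -/

/-- MU2: a compatible matching for `t[v := 2]` either fixes `v` (then it is compatible with
`t[v := 0]`) or moves `v` (compatible with `t[v := 1]`). -/
def MU2_stmt : Prop :=
  ∀ (V : Type) [Finite V] [DecidableEq V] (H : SimpleGraph V) (t : V → Fin 3) (v : V),
    mu H (Function.update t v 2) = mu H (Function.update t v 0) + mu H (Function.update t v 1)

open Classical in
/-- MU1: matchings moving `v`, by the partner `x = σ v` (adjacent to `v`, `t x ≠ 0`).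
Proof: `σ ↦ (σ v, σ * swap v (σ v))`, inverse `(x, σ') ↦ σ' * swap v x`; `σ'` fixes `v` and `x`
(`t v = 0`, so compatibility of `σ'` with `t[x := 0]` says that it fixes `v` and `x`). -/
def MU1_stmt : Prop :=
  ∀ (V : Type) [Fintype V] [DecidableEq V] (H : SimpleGraph V) (t : V → Fin 3) (v : V), t v = 0 →
    mu H (Function.update t v 1) =
      ∑ x, if H.Adj v x ∧ t x ≠ 0 then mu H (Function.update t x 0) else 0

/-- DET: Proof: `det M = ∑ σ, ∏ i, M (σ i) i` (`Matrix.det_apply'`, signs are 1 in `ZMod 2`), `M` is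
symmetric, so the terms of `σ` and `σ⁻¹` are equal and cancel if `σ ≠ σ⁻¹`
(`Finset.sum_involution` on the `σ` with `σ⁻¹ ≠ σ`); for an involution `σ` the product is 1 iff all
entries are 1: `σ i ≠ i`: `H.Adj i (σ i)` and `t i ≠ 0`, `t (σ i) ≠ 0`; `σ i = i`: `t i ≠ 1`. This is
`Mt H σ ∧ Cp t σ`. -/
def DET_stmt : Prop :=
  ∀ (V : Type) [Fintype V] [DecidableEq V] (H : SimpleGraph V) (t : V → Fin 3),
    (MM H t).det = (mu H t : ZMod 2)

/-- ADX: Proof: `Matrix.adjugate_apply`: it is the determinant of `MM H t` with row `x` replaced by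
the unit vector; `MM H t[x := 0]` has in addition the column `x` replaced by the unit vector, which
does not change the determinant (expand both along row `x`, or subtract multiples of row `x`, or
compare the permutation sums: only the `σ` with `σ x = x` contribute). Then DET. -/
def ADX_stmt : Prop :=
  ∀ (V : Type) [Fintype V] [DecidableEq V] (H : SimpleGraph V) (t : V → Fin 3) (x : V), t x ≠ 0 →
    (MM H t).adjugate x x = (mu H (Function.update t x 0) : ZMod 2)

/-- JAC: for a singular symmetric matrix over `ZMod 2`.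
Proof. Let `B = adjugate M`: symmetric (`Matrix.adjugate_transpose`), `M * B = 0`. Suppose
`B x x = 1`: if `M z = 0` and `z x = 0` then `z = 0` (the determinant of `M` with row `x` replaced by
the unit vector is `B x x = 1`, and this matrix kills `z`), so any two vectors `z, z'` of the kernel
with the same value at `x` are equal. The column `B · x` is in the kernel with value 1 at `x`, the
column `B · y` is in the kernel with value `B x y` at `x`, so `B · y = B x y * B · x`; at `y`:
`B y y = B x y * B y x = B x y` (symmetric, `ZMod 2`). The same if `B y y = 1`. If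
`B x x = B y y = 0` suppose `B x y = 1`, the determinant of `M` with row `y` replaced by `e_x`: then
again kernel vectors vanishing at `x` are 0; the column `B · x` is in the kernel and vanishes at `x`,
so it is 0, but `B y x = B x y = 1`. -/
def JAC_stmt : Prop :=
  ∀ (V : Type) [Fintype V] [DecidableEq V] (M : Matrix V V (ZMod 2)) (x y : V), M.IsSymm →
    M.det = 0 → M.adjugate x x * M.adjugate y y = M.adjugate x y

/-- PTH: off-diagonal entries of the adjugate count paths with matchings.
Proof. `adjugate x y = det (M.updateRow y (Pi.single x 1))` (`Matrix.adjugate_apply`). By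
`Matrix.det_apply'` (and `Matrix.det_transpose` to have the permutation in the column index) it is
`∑ σ, [σ y = x] ∏ i ≠ y, M i (σ i)`. Let `c = σ.cycleOf y`, `ρ = c⁻¹ * σ` (the other cycles),
`σ' = c * ρ⁻¹`: an involution on the permutations with `σ y = x`; `∏ i ≠ y` has the same value for
`σ'` (off the cycle of `y`: reindex by `ρ` and use symmetry). The terms with `σ' ≠ σ` cancel. `σ' = σ`
iff `σ (σ w) = w` for all `w` not in the cycle of `y`. For these the product is 1 iff all entries
are 1, i.e. iff `Pt H x y σ ∧ Cp t σ` (`t y ≠ 0`: there is `w ≠ y` with `σ w = y` as `x ≠ y`, and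
`M w y = 1`). -/
def PTH_stmt : Prop :=
  ∀ (V : Type) [Fintype V] [DecidableEq V] (H : SimpleGraph V) (t : V → Fin 3) (x y : V), x ≠ y →
    (MM H t).adjugate x y = (pc H x y t : ZMod 2)

/-- CMP: the number of `t` compatible with two permutations. Proof: independent choices at the
vertices: `v ∈ S`: `t v = 0`; `v ∉ S`: two values if both fix `v` (`0`, `2`) or both move `v`
(`1`, `2`), otherwise one (`2`). (`Fintype.piFinset`, `Fintype.card_piFinset`.) -/
def CMP_stmt : Prop :=
  ∀ (V : Type) [Fintype V] [DecidableEq V] (S : Finset V) (σ τ : Equiv.Perm V),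
    (∀ v ∈ S, σ v = v ∧ τ v = v) →
    Nat.card {t : V → Fin 3 // (∀ v ∈ S, t v = 0) ∧ Cp t σ ∧ Cp t τ} =
      2 ^ Nat.card {v : V // v ∉ S ∧ (σ v = v ↔ τ v = v)}

/-! ## B. Counting -/

/-- NSD: Proof: for `s` vanishing on `insert v S` let `D0`, `D1`, `D2` be the parities of
`mu H s[v := k]`; `D2 = D0 + D1` (MU2), so the number of odd ones among the three is 2 if
`(D0, D1) ≠ (0, 0)` and 0 otherwise: `2 * [D0 odd] + 2 * [D0 even and D1 odd]`. Every `t` vanishing on
`S` is `s[v := t v]` for a unique such `s`. -/
def NSD_stmt : Prop :=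
  ∀ (V : Type) [Finite V] [DecidableEq V] (H : SimpleGraph V) (S : Finset V) (v : V), v ∉ S →
    nS H S = 2 * nS H (insert v S) + 2 * al H S v

/-- ALR: Proof: by MU1 `mu H t[v := 1]` is a sum over the neighbours `x` of `v` with `t x ≠ 0`, it is
odd iff an odd number of the summands is odd. -/
def ALR_stmt : Prop :=
  ∀ (V : Type) [Finite V] [DecidableEq V] (H : SimpleGraph V) (t : V → Fin 3) (v : V), t v = 0 →
    (Odd (mu H (Function.update t v 1)) ↔ Odd (Nat.card {x // H.Adj v x ∧ Gx H t x}))

/-- GXC: Proof: the map `t ↦ t[x := 0]` from the set on the left to the set `nS H (insert x S)` is a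
bijection: for `s` with `s x = 0`, `mu H s` odd: `mu H s[x := 1] + mu H s[x := 2]` is odd (MU2), so
exactly one of the two is even. (If `x ∈ S` the left side is 0.) -/
def GXC_stmt : Prop :=
  ∀ (V : Type) [Finite V] [DecidableEq V] (H : SimpleGraph V) (S : Finset V) (x : V),
    Nat.card {t : V → Fin 3 // (∀ w ∈ S, t w = 0) ∧ Even (mu H t) ∧ Gx H t x} =
      if x ∈ S then 0 else nS H (insert x S)

open Classical in
/-- OD4: inclusion and exclusion modulo 4. Proof: for one `t` with `k = #{x : R t x}`:
`[k odd] ≡ k - k (k - 1)` mod 4, sum over `t`. -/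
def OD4_stmt : Prop :=
  ∀ (T X : Type) [Fintype T] [Fintype X] (P : T → Prop) (R : T → X → Prop),
    (4 : ℤ) ∣ (Nat.card {t // P t ∧ Odd (Nat.card {x // R t x})} : ℤ) -
      ∑ x, (Nat.card {t // P t ∧ R t x} : ℤ) +
      ∑ x, ∑ y, if x = y then (0 : ℤ) else (Nat.card {t // P t ∧ R t x ∧ R t y} : ℤ)

/-- NS24: divisibility of `nS`.
Proof: (1) NSD for some `v ∉ S`. (2) NSD for `v ∉ S`: `nS H (insert v S)` is even by (1), and `al H S v`
is even: by ALR it is the number of `t` vanishing on `insert v S`, `mu` even, with an odd number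
of neighbours `x` of `v` with `Gx H t x`, modulo 2 the sum over the neighbours `x` of the numbers
GXC for `insert v S`, i.e. of 0 or `nS H (insert x (insert v S))`, even by (1). -/
def NS24_stmt : Prop :=
  ∀ (V : Type) [Fintype V] [DecidableEq V] (H : SimpleGraph V) (S : Finset V),
    (S.card + 1 ≤ Fintype.card V → 2 ∣ nS H S) ∧ (S.card + 3 ≤ Fintype.card V → 4 ∣ nS H S)

/-- BXY: Proof: `pc H x y t = 0` if `t x = 0` or `t y = 0` (compatibility). In `ZMod 2` the indicator
function of the set counted by `Bc` is `(1 + mu H t) * g x * g y` with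
`g x = [t x ≠ 0] * mu H t[x := 0]`; for `t x ≠ 0`, `t y ≠ 0` and `mu H t` even, `g x * g y` is
`adjugate x x * adjugate y y = adjugate x y = pc` (ADX, DET, JAC, PTH; `MM` is symmetric). -/
def BXY_stmt : Prop :=
  ∀ (V : Type) [Fintype V] [DecidableEq V] (H : SimpleGraph V) (v x y : V), x ≠ y →
    (Bc H v x y : ZMod 2) = ∑ t : V → Fin 3,
      if t v = 0 then (1 + (mu H t : ZMod 2)) * (pc H x y t : ZMod 2) else 0

/-- SG1: Proof: exchange the sums: for `σ` with `Pt H x y σ`: if `σ v ≠ v` there is no compatible `t`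
with `t v = 0`, otherwise there are `2 ^ (|V| - 1)` (CMP with `τ = σ`, `S = {v}`), which is even. -/
def SG1_stmt : Prop :=
  ∀ (V : Type) [Fintype V] [DecidableEq V] (H : SimpleGraph V) (v x y : V), x ≠ y → x ≠ v → y ≠ v →
    (∑ t : V → Fin 3, if t v = 0 then (pc H x y t : ZMod 2) else 0) = 0

/-- SG2: Proof: exchange the sums: pairs `(μ, σ)`, `Mt H μ`, `Pt H x y σ`; if both fix `v` the number
of compatible `t` with `t v = 0` is 2 to the number of `w ≠ v` which are fixed by both or moved by
both (CMP, `S = {v}`), odd iff there is no such `w`; if one of them moves `v` there is none. -/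
def SG2_stmt : Prop :=
  ∀ (V : Type) [Fintype V] [DecidableEq V] (H : SimpleGraph V) (v x y : V),
    (∑ t : V → Fin 3, if t v = 0 then (mu H t : ZMod 2) * (pc H x y t : ZMod 2) else 0) =
      (PP H v x y : ZMod 2)

/-- SWP: Proof: involution on the pairs `(μ, σ)` counted by `PP`: `μ'` is `σ` off the cycle of `y` (in
`σ`) and the identity on it; `σ'` is `σ` on the cycle of `y` and `μ` off it (`μ` is the identity on
the cycle of `y`, as `σ` moves its elements). A fixed pair: off the cycle of `y` `μ` and `σ` agree,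
but exactly one of them moves a given `w ≠ v`; so every `w ≠ v` is in the cycle of `y` and `μ = 1`: the
fixed pairs are the `(1, σ)` with `σ` as in `Hp`. -/
def SWP_stmt : Prop :=
  ∀ (V : Type) [Finite V] [DecidableEq V] (H : SimpleGraph V) (v x y : V), x ≠ y → x ≠ v → y ≠ v →
    (PP H v x y : ZMod 2) = (Hp H v x y : ZMod 2)

/-- BHP: Proof: BXY, SG1, SG2, SWP. -/
def BHP_stmt : Prop :=
  ∀ (V : Type) [Fintype V] [DecidableEq V] (H : SimpleGraph V) (v x y : V), x ≠ y → x ≠ v → y ≠ v →
    (Bc H v x y : ZMod 2) = (Hp H v x y : ZMod 2)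

/-- HPS: reversing the path. Proof: `σ ↦ σ⁻¹` is a bijection from the set `Hp H v x y` to
`Hp H v y x`: `σ⁻¹ x = y`; for `w ≠ v, x` let `w' = σ⁻¹ w`: `w' ≠ v, y` (as `σ v = v`, `σ y = x`), so
`H.Adj w' (σ w') = H.Adj (σ⁻¹ w) w`; `SameCycle` is the same for `σ⁻¹`, and `x`, `y` are in the same
cycle. (If `x = y` there is nothing to prove.) -/
def HPS_stmt : Prop :=
  ∀ (V : Type) [Finite V] [DecidableEq V] (H : SimpleGraph V) (v x y : V), x ≠ v → y ≠ v →
    Hp H v x y = Hp H v y x

open Classical in
/-- HPC: directed Hamiltonian cycles by the neighbours of `v`.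
Proof: `σ ↦ (x, y, swap v x * σ)` with `x = σ v`, `y = σ⁻¹ v` (`x ≠ y` as there are at least three
vertices); `swap v x * σ` fixes `v`, maps `y` to `x` and is a cycle on the other vertices. -/
def HPC_stmt : Prop :=
  ∀ (V : Type) [Fintype V] [DecidableEq V] (H : SimpleGraph V) (v : V), 3 ≤ Fintype.card V →
    Hc H = ∑ x, ∑ y, if H.Adj v x ∧ H.Adj v y ∧ x ≠ y then Hp H v x y else 0

/-- N1H: the count modulo 8, for every graph with at least 5 vertices.
Proof: let `v` be any vertex. NSD with `S = ∅`: `nS H ∅ = 2 * nS H {v} + 2 * al H ∅ v`, `4 ∣ nS H {v}`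
(NS24). By ALR, `al H ∅ v` is the number of `t` with `t v = 0`, `mu H t` even and an odd number of
`x` with `H.Adj v x ∧ Gx H t x`. OD4: it is, modulo 4, `∑ x, GXC - ∑ x ≠ y, Bc H v x y` (over the
neighbours of `v`); the terms GXC are `nS H {x, v}`, divisible by 4 (NS24, `2 + 3 ≤ |V|`). So
`nS H ∅ ≡ -2 * ∑ x ≠ y, Bc` mod 8. The differences `Bc - Hp` are even (BHP) and symmetric in `x`, `y`
(`Bc` obviously, `Hp` by HPS), so `∑ x ≠ y, (Bc - Hp)` is divisible by 4, and
`∑ x ≠ y, Hp = Hc H` (HPC). -/
def N1H_stmt : Prop :=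
  ∀ (V : Type) [Fintype V] [DecidableEq V] (H : SimpleGraph V), 5 ≤ Fintype.card V →
    8 ∣ nS H ∅ + 2 * Hc H

/-- HC2: every Hamiltonian cycle has two directions.
Proof: `σ ↦ F σ` with `(F σ).Adj v w ↔ σ v = w ∨ σ w = v` (`F σ ≤ H`, two neighbours
`σ v ≠ σ⁻¹ v` as `|V| ≥ 3`, connected as all vertices are in one cycle). Every `F` is the image of
exactly two `σ`: if `F σ = F σ'` and `σ v = σ' v` for one `v` then for all (`σ (σ v)` is the
neighbour of `σ v` different from `v`; go around the cycle), so `σ' = σ` or `σ' = σ⁻¹`, and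
`σ ≠ σ⁻¹`. Existence: for given `F` start with an edge `u - w` of `F`; the map `r` on the darts of
`F`, `r d` = the dart from `d.snd` to the neighbour of `d.snd` different from `d.fst`, is a
permutation; follow it (or use `SimpleGraph.IsCycles` and
`IsCycles.exists_cycle_toSubgraph_verts_eq_connectedComponentSupp`: a cycle through all
vertices as a walk; `σ (p.getVert i) = p.getVert (i + 1)`). -/
def HC2_stmt : Prop :=
  ∀ (V : Type) [Fintype V] [DecidableEq V] (H : SimpleGraph V), 3 ≤ Fintype.card V →
    Hc H = 2 * numHam H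

/-! ## C. Words and walks -/

/-- WEU: an Eulerian closed walk gives a word.
Proof: `p.getVert (i + 1)` is adjacent to `p.getVert i` for `i < length`
(`SimpleGraph.Walk.adj_getVert_succ`), `getVert length = u = getVert 0`, so the word
`q i = p.getVert (i % p.length)` has consecutive adjacent vertices (`length ≥ 3` or at least 1:
there is an edge and every edge is in the walk). The list `p.edges` has no duplicates
(`IsEulerian.isTrail`), contains every edge, and its `i`-th element is
`s(p.getVert i, p.getVert (i + 1))`. The interlace graphs agree: `i % length = i` below the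
length. -/
def WEU_stmt : Prop :=
  ∀ (V : Type) [Fintype V] [DecidableEq V] (G : SimpleGraph V) (u : V) (p : G.Walk u u),
    FourRegular G → p.IsEulerian →
    EW G p.length (fun i => p.getVert (i % p.length)) ∧
      interlaceGraph p = IG p.length (fun i => p.getVert (i % p.length))

/-- POS: every vertex has exactly two positions.
Proof: let `A = {i < m : q i = v}`, `B = {i < m : q (i + 1) = v}`: disjoint (`G` is loopless), and
`|A| = |B|` (`i ↦ i + 1` mod `m`, `q` has period `m`). By `inj`, `sur` the map from `A ∪ B` to the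
neighbours of `v` (the other vertex of the edge `q i, q (i + 1)`) is a bijection. So
`2 |A| = 4`. -/
def POS_stmt : Prop :=
  ∀ (V : Type) [Fintype V] [DecidableEq V] (G : SimpleGraph V) (m : ℕ) (q : ℕ → V),
    FourRegular G → EW G m q → ∃ a b, Pos m q a b

/-- EMB: the matching of the word.
Proof: put `e (v,0) = outD (a v + m - 1)`, `e (v,1) = inD (a v + 1)`, `e (v,2) = inD (b v + 1)`,
`e (v,3) = outD (b v + m - 1)`; `inD`, `outD` have period `m`, and every dart is `inD i` or `outD i`
for exactly one `i < m` (`Pos`). No fixed points and adjacency: `G.Adj (q i) (q (i + 1))`. Every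
neighbour `w` of `u` is `(e (u, i)).1` for some `i` (`sur`); as there are 4 neighbours and 4 values of
`i`, the map `i ↦ (e (u, i)).1` is injective. -/
def EMB_stmt : Prop :=
  ∀ (V : Type) [Fintype V] [DecidableEq V] (G : SimpleGraph V) (m : ℕ) (q : ℕ → V) (a b : V → ℕ),
    FourRegular G → EW G m q → Pos m q a b →
    ∃ e : V × Fin 4 → V × Fin 4,
      (∀ i, e (outD m q a i) = inD m q a (i + 1)) ∧ (∀ i, e (inD m q a (i + 1)) = outD m q a i) ∧
      Act (dts (univ : Finset V)) e ∧ (∀ u i, G.Adj u (e (u, i)).1) ∧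
      (∀ u w, G.Adj u w → ∃ i, (e (u, i)).1 = w) ∧ ∀ u i j, (e (u, i)).1 = (e (u, j)).1 → i = j

/-- LBW: circuits and the kernel.
Proof. Use `ZMod 2` (or `Bool` with `xor`) for the labels. A labeling `φ` with `φ (e d) = φ d` is a
function `g` on positions, `g i = φ (outD i) = φ (inD (i + 1))`, with period `m`. The darts at `v`
(`a = a v`, `b = b v`) have the labels `g (a-1), g a, g b, g (b-1)` for `0, 1, 2, 3` (indices mod
`m`). Invariance under `tr t` at `v` means: `t v = 0`: `g (a-1) = g a`, `g (b-1) = g b`; `t v = 1`: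
`g (a-1) = g b`, `g a = g (b-1)`; `t v = 2`: `g (a-1) = g (b-1)`, `g a = g b`. In all cases
`g (a-1) + g a = g (b-1) + g b =: z v`, and `z v = 0` if `t v = 0`. Conversely for `z : V → ZMod 2` and
`c` put `g i = c + ∑ j ≤ i, z (q j)` for `i < m` (periodic, as `∑ j < m, z (q j) = ∑ v, 2 z v = 0`).
So the labelings correspond to the pairs `(c, z)` with the remaining conditions. Now
`g (a-1) + g (b-1) = ∑ a ≤ j < b, z (q j) = z v + ∑ w, z w * #{positions of w between a and b}
= z v + ∑ w adjacent to v in IG, z w` (a vertex `w ≠ v` has exactly one position between `a v` and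
`b v` iff it is interlaced with `v`). `t v = 1`: `g (a-1) = g b` iff `g (a-1) + g (b-1) = z v` iff the
sum over the neighbours is 0. `t v = 2`: iff `g (a-1) + g (b-1) = 0` iff the sum over the
neighbours is `z v`. These are the conditions `Kz`. -/
def LBW_stmt : Prop :=
  ∀ (V : Type) [Fintype V] [DecidableEq V] (G : SimpleGraph V) (m : ℕ) (q : ℕ → V) (a b : V → ℕ)
    (e : V × Fin 4 → V × Fin 4) (t : V → Fin 3), EW G m q → Pos m q a b →
    (∀ i, e (outD m q a i) = inD m q a (i + 1)) → (∀ i, e (inD m q a (i + 1)) = outD m q a i) →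
    Nat.card {φ : V × Fin 4 → Bool // (∀ d, φ (e d) = φ d) ∧ ∀ d, φ (tr t d) = φ d} =
      2 * Nat.card {z : V → ZMod 2 // Kz (IG m q) t z}

/-- KER: Proof: `Kz H t z` iff `(MM H t).mulVec z = 0` (rows with `t v = 0` say `z v = 0`); the kernel is
trivial iff the determinant is not 0 (`Matrix.exists_mulVec_eq_zero_iff`), DET. -/
def KER_stmt : Prop :=
  ∀ (V : Type) [Fintype V] [DecidableEq V] (H : SimpleGraph V) (t : V → Fin 3),
    Nat.card {z : V → ZMod 2 // Kz H t z} = 1 ↔ Odd (mu H t)

/-- N8C: `c_2` from the number of transition systems with one circuit.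
Proof: as A1C (helper66/SYM/A1C.lean) and N31 (helper84/SYM/N31.lean). Let `X = numZeros`,
`a_0 = #{t ∈ pf L : lps L e t = 0}`. `CT.core`: `32 ∣ 4 X - Z (-4) (L ++ [v])`, JZ5:
`Z (-4) (L ++ [v]) = 8 * Z (-4) L`, `Z (-4) L ≡ a_0` mod 4: `X ≡ 2 a_0` mod 8. As in N31 (coefficient
of `X ^ 1` of the identity of polynomials) the number `N` of the statement is `2 a_0`. `CT.fJC1`:
`16 ∣ Z (-4) (L ++ [v])`, so `a_0` is even. So `4 ∣ N`, `X ≡ N` mod 8. -/
def N8C_stmt : Prop :=
  ∀ (V : Type) [Fintype V] [DecidableEq V] (G : SimpleGraph V) (v : V)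
    (e : V × Fin 4 → V × Fin 4) (L : List V),
    FourRegular G → 6 ≤ Fintype.card V → Act (dts (univ : Finset V)) e →
    (∀ u i, G.Adj u (e (u, i)).1) → (∀ u w, G.Adj u w → ∃ i, (e (u, i)).1 = w) →
    (∀ u i j, (e (u, i)).1 = (e (u, j)).1 → i = j) → L.Nodup → L.toFinset = univ.erase v →
    4 ∣ Nat.card {t : V → Fin 3 // lps (L ++ [v]) e t = 1} ∧
      C2Is (decompletion G v) (ZMod 2)
        ((Nat.card {t : V → Fin 3 // lps (L ++ [v]) e t = 1} / 4 : ℕ) : ℤ)

/-- N1W: Proof: POS, EMB, `L = (univ.erase v).toList`, N8C; by LB0 (second part), LBW and KER: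
`2 ^ lps (L ++ [v]) e t = 2 * card Kz`, so `lps = 1` iff `mu` is odd; the number is `nS (IG m q) ∅`. -/
def N1W_stmt : Prop :=
  ∀ (V : Type) [Fintype V] [DecidableEq V] (G : SimpleGraph V) (m : ℕ) (q : ℕ → V) (v : V),
    FourRegular G → 6 ≤ Fintype.card V → EW G m q →
    4 ∣ nS (IG m q) ∅ ∧ C2Is (decompletion G v) (ZMod 2) ((nS (IG m q) ∅ / 4 : ℕ) : ℤ)

/-- FORM: the formula. Proof: N1W, N1H, HC2: `nS ≡ -4 numHam` mod 8, so `nS / 4 ≡ numHam` mod 2; the
property `C2Is H (ZMod 2) r` depends only on `r` mod 2. -/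
def FORM_stmt : Prop :=
  ∀ (V : Type) [Fintype V] [DecidableEq V] (G : SimpleGraph V) (m : ℕ) (q : ℕ → V) (v : V),
    FourRegular G → 6 ≤ Fintype.card V → EW G m q →
    C2Is (decompletion G v) (ZMod 2) (numHam (IG m q) : ℤ)

/-! ## D. Decompositions into closed trails -/

/-- TRX: transition systems as functions `t`.
Proof: `δ d = (d.fst, i)` with `(e (d.fst, i)).1 = d.snd`; `δ d.symm = e (δ d)`. A transition system
at `u` is a fixed point free involution of the four darts, i.e. of `Fin 4`, it is `pa (t u)`. The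
labelings: SYM.LBF for `s = symm`, `Q = False` (`nci τ = gav τ _ = nav symm τ _`), transported
by `δ`. (Compare row TRP of project sy, helper83/SYM/TRP.lean.) -/
def TRX_stmt : Prop :=
  ∀ (V : Type) [Fintype V] [DecidableEq V] (G : SimpleGraph V) (e : V × Fin 4 → V × Fin 4),
    Act (dts (univ : Finset V)) e →
    (∀ u i, G.Adj u (e (u, i)).1) → (∀ u w, G.Adj u w → ∃ i, (e (u, i)).1 = w) →
    (∀ u i j, (e (u, i)).1 = (e (u, j)).1 → i = j) →
    ∃ δ : G.Dart ≃ V × Fin 4, (∀ d, (δ d).1 = d.fst) ∧ (∀ d, δ d.symm = e (δ d)) ∧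
      ∀ τ : G.Dart → G.Dart, IsTS τ → ∃ t : V → Fin 3, (∀ d, δ (τ d) = tr t (δ d)) ∧
        2 ^ nci τ = Nat.card {φ : V × Fin 4 → Bool // (∀ d, φ (e d) = φ d) ∧
          ∀ d, φ (tr t d) = φ d}

/-- MRG: merging two circuits.
Proof. The functions `φ : G.Dart → Bool` invariant under `symm` and `τ` are `2 ^ nci τ` (SYM.LBF).
Let `ψ` be such a function which is not constant (`nci τ ≥ 2`). If at every vertex all darts had the
same value, `ψ` would be constant on the connected graph; so there is a vertex `v` with darts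
`d, τ d` of value `true` and the other two `d', τ d'` of value `false`; we can take for `ψ` the
indicator function of the circuit of `d`. Let `τ₁ = τ` outside `v`, `d ↔ d'`, `τ d ↔ τ d'` at `v`. If
`φ` is invariant under `symm` and `τ₁` then `φ d = φ (τ d)`: the sum over all darts of `ψ * φ`
(in `ZMod 2`) is 0 (pairs `x, x.symm`), and so is the part outside `v` (pairs `x, τ x`), so the part
at `v`, `φ d + φ (τ d)`, is 0. So `φ` is invariant under `τ`; conversely the functions invariant
under `τ` and `τ₁` are those invariant under `τ` with `φ d = φ d'`: exactly half of them (add `ψ`). -/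
def MRG_stmt : Prop :=
  ∀ (V : Type) [Fintype V] [DecidableEq V] (G : SimpleGraph V) (τ : G.Dart → G.Dart),
    FourRegular G → G.Connected → IsTS τ → 2 ≤ nci τ →
    ∃ (v : V) (τ₁ : G.Dart → G.Dart), IsTS τ₁ ∧ (∀ d : G.Dart, d.fst ≠ v → τ₁ d = τ d) ∧
      nci τ₁ + 1 = nci τ

/-- MIN: Proof: induction on `nci τ` with MRG (`S` = the set of the vertices used; `nci τ ≥ 1` as
there is a dart). -/
def MIN_stmt : Prop :=
  ∀ (V : Type) [Fintype V] [DecidableEq V] (G : SimpleGraph V) (τ : G.Dart → G.Dart),
    FourRegular G → G.Connected → IsTS τ →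
    ∃ (τ' : G.Dart → G.Dart) (S : Finset V), IsTS τ' ∧ nci τ' = 1 ∧
      (∀ d : G.Dart, d.fst ∉ S → τ d = τ' d) ∧ S.card + 1 ≤ nci τ

/-- EUW: a transition system with one circuit is an Eulerian word.
Proof: `r d = τ d.symm` is a permutation of the darts with `(r d).fst = d.snd`; let `d₀` be a dart,
`m` its minimal period under `r`, `q i = (r^[i] d₀).fst`. `(r^[i] d₀).snd = q (i + 1)`. The set of the
`r^[i] d₀` and `(r^[i] d₀).symm` is closed under `symm` and `τ`
(`τ (r^[i+1] d₀) = (r^[i] d₀).symm`), so it contains all darts (one circuit): `sur`.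
`(r^[i] d₀).symm ≠ r^[j] d₀`: as in the proof of SYM.DHE (helper6/SYM/DHE.lean): otherwise `symm` or
`τ` would have a fixed point. So `inj`: equal edges means `r^[i] d₀ = r^[j] d₀` or
`= (r^[j] d₀).symm`. `Fol`: `d = (r^[i] d₀).symm`, `τ d = r^[i+1] d₀`. -/
def EUW_stmt : Prop :=
  ∀ (V : Type) [Fintype V] [DecidableEq V] (G : SimpleGraph V) (τ : G.Dart → G.Dart),
    IsTS τ → nci τ = 1 → ∃ (m : ℕ) (q : ℕ → V), EW G m q ∧ Fol q τ

/-- IDP: independent sets of the interlace graph.
Proof: POS, EMB, TRX: `δ`. For `τ'` (`Fol q τ'`): `δ (τ' d) = tr 0 (δ d)`, since the dart from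
`q (i + 1)` to `q i` is mapped by `δ` to `inD (i + 1)` (`δ d.symm = e (δ d)`; the first components
determine the dart: the four values `(e (u, i)).1` are different), and the dart from `q (i + 1)` to
`q (i + 2)` to `outD (i + 1)`. `τ` gives `t` with `2 ^ nci τ` labelings, and `t v = 0` for `v ∉ S` (the
pairings `pa 0, pa 1, pa 2` are different). By LBW `2 ^ nci τ = 2 * card {z // Kz (IG m q) t z}`. All `z`
with `Kz` vanish outside `S` (`t v = 0` implies `z v = 0`): at most `2 ^ S.card`. So
`nci τ ≤ S.card + 1`. If there is equality, all functions supported in `S` satisfy `Kz`. For `a ≠ b`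
in `S`: `Pi.single a 1` satisfies `Kz`, so `t a ≠ 0`, and the condition of `Pi.single b 1` at `a`
says `[a, b adjacent] = 0`. -/
def IDP_stmt : Prop :=
  ∀ (V : Type) [Fintype V] [DecidableEq V] (G : SimpleGraph V) (m : ℕ) (q : ℕ → V)
    (τ τ' : G.Dart → G.Dart) (S : Finset V), FourRegular G → EW G m q → IsTS τ → IsTS τ' →
    Fol q τ' → (∀ d : G.Dart, d.fst ∉ S → τ d = τ' d) →
    nci τ ≤ S.card + 1 ∧ (S.card + 1 ≤ nci τ → ∀ a ∈ S, ∀ b ∈ S, ¬ (IG m q).Adj a b)

/-- IND: Proof: let `F ≤ H` with two neighbours at every vertex. Count the pairs `(x, y)` with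
`x ∈ S`, `F.Adj x y` (so `y ∉ S`): there are `2 |S|`, and at most `2 (|V| - |S|)`. -/
def IND_stmt : Prop :=
  ∀ (V : Type) [Fintype V] [DecidableEq V] (H : SimpleGraph V) (S : Finset V),
    (∀ a ∈ S, ∀ b ∈ S, ¬ H.Adj a b) → Fintype.card V < 2 * S.card → numHam H = 0

/-- TSB: Proof: `G` is connected (SYM.CNX). MIN gives `τ'`, `S` with `S.card + 1 ≤ nci τ`; EUW gives a
word `q` with `Fol q τ'`; IDP: `nci τ = S.card + 1` and `S` is independent in `IG m q`. If
`card V + 2 < 2 * nci τ` then `card V < 2 * S.card`, so `numHam (IG m q) = 0` (IND) and FORM gives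
`C2Is _ _ 0` for every `v`. -/
def TSB_stmt : Prop :=
  ∀ (V : Type) [Fintype V] [DecidableEq V] (G : SimpleGraph V), FourRegular G →
    7 ≤ Fintype.card V → (∃ v, ¬ C2Is (decompletion G v) (ZMod 2) 0) →
    ∀ τ : G.Dart → G.Dart, IsTS τ → 2 * nci τ ≤ Fintype.card V + 2

/-- DEC: Proof: at every vertex the classes of the four darts `c s(d.fst, d.snd)` occur with even
multiplicity, so the darts can be paired within the classes (all four in one class: any pairing;
two and two: the unique one). For this `τ` the class is constant on the circuits, and all `b`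
classes occur: `b ≤ nci τ`. -/
def DEC_stmt : Prop :=
  ∀ (V : Type) [Fintype V] [DecidableEq V] (G : SimpleGraph V) (b : ℕ) (c : Sym2 V → Fin b),
    FourRegular G → EvenPartition G b c → ∃ τ : G.Dart → G.Dart, IsTS τ ∧ b ≤ nci τ

/-! ## E. Planar graphs -/

/-- FCC: the faces of one colour are the circuits of a transition system.
Proof: `f (ρ d) = f d.symm ≠ f d` (`f (ρ (d.symm).symm) = f d.symm`). Let `τ d = ρ (ρ (ρ d))` if
`f d = c` and `τ d = ρ d` otherwise: a transition system. If `f d = c` then `f d.symm ≠ c`,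
`τ d.symm = ρ d.symm`, the next dart of the face. So the map which sends the circuit of `d` to the
face of `d` if `f d = c` and to the face of `d.symm` otherwise is well defined
(`τ d = ρ d` for `f d ≠ c`: the face of `ρ d = ρ (d.symm).symm` is the face of `d.symm`) and its
inverse sends the face of `d` (`f d = c`) to the circuit of `d`. -/
def FCC_stmt : Prop :=
  ∀ (V : Type) [Fintype V] [DecidableEq V] (G : SimpleGraph V) (ρ : G.Dart → G.Dart)
    (f : G.Dart → Bool), Rot ρ → FaceCol ρ f →
    ∀ c, ∃ τ : G.Dart → G.Dart, IsTS τ ∧ nci τ = nfc ρ f c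

/-- FCO: genus 0: the faces can be 2-coloured.
Proof. Let `D = G.Dart`, `|D| = 4 n`. Consider the vector spaces over `ZMod 2`: `C` = functions on
faces, dimension `n + 2`; `E` = functions `y` on `D` with `y d.symm = y d`, dimension `2 n`;
`Z ⊆ E` = those with `∑ y d = 0` over the darts at every vertex. The map `C → E`,
`x ↦ (d ↦ x (face d) + x (face d.symm))` has its image in `Z` (`face d.symm = face (ρ d)`, and `ρ`
permutes the darts at a vertex), its kernel consists of the constant functions (`x (face d)
= x (face d.symm) = x (face (ρ d))`: constant at every vertex (the orbit of `ρ` has four elements: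
all darts at the vertex) and on every edge, `G` connected). So the image has dimension `n + 1`.
`dim Z = n + 1`: the map `E → (V → ZMod 2)`, `y ↦ ∑` at the vertices, has rank `n - 1`: it is the
transpose of `(V → ZMod 2) → E`, `x ↦ (d ↦ x d.fst + x d.snd)`, whose kernel is the constant
functions (connected). So the image is `Z`, and it contains the constant function 1
(4 darts at every vertex): `x (face d) + x (face d.symm) = 1`. -/
def FCO_stmt : Prop :=
  ∀ (V : Type) [Fintype V] [DecidableEq V] (G : SimpleGraph V) (ρ : G.Dart → G.Dart),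
    FourRegular G → G.Connected → Rot ρ → Nat.card (Face ρ) = Fintype.card V + 2 →
    ∃ f : G.Dart → Bool, FaceCol ρ f

/-- PLA: Proof: `G` is connected (SYM.CNX), FCO gives a colouring. For every colouring the numbers
of faces of the two colours have the sum `n + 2` (every face has exactly one colour) and by FCC
and TSB twice each of them is at most `n + 2`. So `2 * nfc = n + 2` for both. -/
def PLA_stmt : Prop :=
  ∀ (V : Type) [Fintype V] [DecidableEq V] (G : SimpleGraph V) (ρ : G.Dart → G.Dart),
    FourRegular G → 7 ≤ Fintype.card V → (∃ v, ¬ C2Is (decompletion G v) (ZMod 2) 0) →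
    Rot ρ → Nat.card (Face ρ) = Fintype.card V + 2 →
    Even (Fintype.card V) ∧ ∀ f : G.Dart → Bool, FaceCol ρ f → ∀ c,
      2 * nfc ρ f c = Fintype.card V + 2

/-! ## F. Existence of Eulerian walks -/

/-- EWW: a word gives an Eulerian closed walk.
Proof: by induction on `i` a walk `w i : G.Walk (q 0) (q i)` of length `i` with
`(w i).edges = (List.range i).map fun j => s(q j, q (j + 1))` (append the edge at the end,
`Walk.concat`, `edges_concat`); `q m = q 0` (`per`); every edge occurs exactly once by `inj`, `sur`. -/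
def EWW_stmt : Prop :=
  ∀ (V : Type) [Fintype V] [DecidableEq V] (G : SimpleGraph V) (m : ℕ) (q : ℕ → V), EW G m q →
    ∃ (u : V) (p : G.Walk u u), p.IsEulerian

/-- EXW: connected 4-regular graphs have Eulerian closed walks.
Proof: there is a transition system (pair the four darts at every vertex); MIN, EUW, EWW. -/
def EXW_stmt : Prop :=
  ∀ (V : Type) [Fintype V] [DecidableEq V] (G : SimpleGraph V), FourRegular G → G.Connected →
    ∃ (u : V) (p : G.Walk u u), p.IsEulerian

end Pool.Agent.IH
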