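import Pool.Agent.helper5.IH.Spec

/-!
# Project ih, part 2: partitions into few-touching even subgraphs, triangles

Let `E(G)` be partitioned into `b ≥ 2` nonempty even subgraphs (classes) and let `l` be the number of
vertices which meet at least two classes (`Shared`). If `c_2 ≠ 0` at `q = 2` then (TP1)
`l ≥ 2 b - 1`, or `l = 2 b - 2 = n`; and (TP2) if `l = 2 b - 1` then two vertices `u`, `u'` meet all
parallel pairs (pairs of vertices meeting the same two classes). Consequence (TR2): no triangle
meets three other triangles (the four pairwise edge-disjoint). Checked by computer on more than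
10^5 transition systems of random 4-regular graphs.

`cir s τ d` (helper5/SYM/Defs.lean) is the circuit of the dart `d`.
-/

set_option autoImplicit false

namespace Pool.Agent.IH
open Finset CT SYM

section defs
variable {V : Type} {G : SimpleGraph V} {b : ℕ}

/-- Two different circuits of `τ` pass through `v`. -/
def Tw (τ : G.Dart → G.Dart) (v : V) : Prop :=
  ∃ d d' : G.Dart, d.fst = v ∧ d'.fst = v ∧
    cir (fun d : G.Dart => d.symm) τ d ≠ cir (fun d : G.Dart => d.symm) τ d'

/-- `τ` is a transition system compatible with the classes. -/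
def Comp (c : Sym2 V → Fin b) (τ : G.Dart → G.Dart) : Prop :=
  IsTS τ ∧ ∀ d : G.Dart, c (τ d).edge = c d.edge

/-- The vertex `v` meets at least two classes. -/
def Shared (G : SimpleGraph V) (c : Sym2 V → Fin b) (v : V) : Prop :=
  ∃ w w', G.Adj v w ∧ G.Adj v w' ∧ c s(v, w) ≠ c s(v, w')

/-- The vertices `x` and `y` meet the same two classes. -/
def Par (G : SimpleGraph V) (c : Sym2 V → Fin b) (x y : V) : Prop :=
  Shared G c x ∧ Shared G c y ∧
    ∀ i, (∃ w, G.Adj x w ∧ c s(x, w) = i) ↔ ∃ w, G.Adj y w ∧ c s(y, w) = i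

end defs

/-- MRV: merging two circuits at a given vertex (see the proof of MRG; helper54/IH/MRG.lean may
contain this as a lemma).
Proof: the functions `G.Dart → Bool` invariant under `symm` and `τ` are `2 ^ nci τ` (SYM.LBF). Let `ψ` be
the indicator function of the circuit of `d`; `ψ` is true on `d, τ d` and false on `d', τ d'` (these are
the four darts at `v`). `τ₁ = τ` outside `v`, `d ↔ d'`, `τ d ↔ τ d'` at `v`. If `φ` is invariant under
`symm` and `τ₁` then `φ d = φ (τ d)`: the sum over all darts of `ψ * φ` (in `ZMod 2`) is 0 (pairs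
`x, x.symm`), the part outside `v` is 0 (pairs `x, τ x`), so `φ d + φ (τ d) = 0`. So `φ` is invariant
under `τ`, and the functions invariant under `τ₁` are those invariant under `τ` with `φ d = φ d'`:
exactly half of them (add `ψ`). -/
def MRV_stmt : Prop :=
  ∀ (V : Type) [Fintype V] [DecidableEq V] (G : SimpleGraph V) (τ : G.Dart → G.Dart)
    (d d' : G.Dart), FourRegular G → IsTS τ → d.fst = d'.fst →
    cir (fun d : G.Dart => d.symm) τ d ≠ cir (fun d : G.Dart => d.symm) τ d' →
    ∃ τ₁ : G.Dart → G.Dart, IsTS τ₁ ∧ (∀ x : G.Dart, x.fst ≠ d.fst → τ₁ x = τ x) ∧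
      nci τ₁ + 1 = nci τ

/-- DEC2: Proof: as DEC (helper57/IH/DEC.lean): at every vertex pair the darts within the classes.
For a compatible `τ` the class is constant on the circuits and all classes occur. -/
def DEC2_stmt : Prop :=
  ∀ (V : Type) [Fintype V] [DecidableEq V] (G : SimpleGraph V) (b : ℕ) (c : Sym2 V → Fin b),
    FourRegular G → EvenPartition G b c →
    (∃ τ : G.Dart → G.Dart, Comp c τ) ∧ ∀ τ : G.Dart → G.Dart, Comp c τ → b ≤ nci τ

/-- MNC: Proof: take a compatible `τ` with the smallest number of circuits (DEC2). Darts of different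
classes are in different circuits, so `Shared` implies `Tw`. If `v` is not shared and two circuits
pass through `v`, MRV gives `τ₁` with fewer circuits, which is compatible (all darts at `v` have
the same class). -/
def MNC_stmt : Prop :=
  ∀ (V : Type) [Fintype V] [DecidableEq V] (G : SimpleGraph V) (b : ℕ) (c : Sym2 V → Fin b),
    FourRegular G → EvenPartition G b c →
    ∃ τ : G.Dart → G.Dart, Comp c τ ∧ b ≤ nci τ ∧ ∀ v, Tw τ v ↔ Shared G c v

/-- ADJ: adjacency in the interlace graph from labelings.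
Proof. As in IDP (helper74/IH/IDP.lean): `a`, `b'`, `e`, `δ`, `t` with `δ (τ d) = tr t (δ d)`, `t v = 0` for
`v ∉ S`, and all functions supported in `S` satisfy `Kz (IG m q) t`; so for `z ∈ S` (`Pi.single z 1`):
`t z ≠ 0` and (condition at `z`) `0 = [t z = 2]`, so `t z = 1`. Let `φ : V × Fin 4 → Bool` be
`φ (outD i) = φ (inD (i + 1)) = [a z ≤ i < b z]` for `i < m`, and `ψ = φ ∘ δ`. Labels at the darts
`0, 1, 2, 3` of `z`: `0, 1, 0, 1` (invariant under `pa 1`, not constant). At `w ≠ z`: the darts `0, 1`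
have the label `[a z < a w < b z]`, the darts `2, 3` the label `[a z < b w < b z]`: invariant under
`pa 0`; the two labels are different iff `w` is interlaced with `z`. For `w ∈ S` it is not
(IDP), all four labels are equal. So `ψ` is invariant under `τ`, and not constant at `w` iff `w = z`
resp. iff `w` is adjacent to `z`. -/
def ADJ_stmt : Prop :=
  ∀ (V : Type) [Fintype V] [DecidableEq V] (G : SimpleGraph V) (m : ℕ) (q : ℕ → V)
    (τ τ' : G.Dart → G.Dart) (S : Finset V), FourRegular G → EW G m q → IsTS τ → IsTS τ' →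
    Fol q τ' → (∀ d : G.Dart, d.fst ∉ S → τ d = τ' d) → nci τ = S.card + 1 →
    ∀ z ∈ S, ∃ ψ : G.Dart → Bool, (∀ d, ψ d.symm = ψ d) ∧ (∀ d, ψ (τ d) = ψ d) ∧
      (∀ w ∈ S, (∃ d d' : G.Dart, d.fst = w ∧ d'.fst = w ∧ ψ d ≠ ψ d') ↔ w = z) ∧
      ∀ v, v ∉ S → ((∃ d d' : G.Dart, d.fst = v ∧ d'.fst = v ∧ ψ d ≠ ψ d') ↔
        (IG m q).Adj z v)

/-- HAM1: an independent set with few neighbours.
Proof: let `F ≤ H` be connected with two neighbours at every vertex. Every `z ∈ S` has two
`F`-neighbours, in `N`; every `v ∈ N` has at most two in `S`: `2 |S| ≤ 2 |N|`. In the case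
`|N| = |S|` every `v ∈ N` has both `F`-neighbours in `S`, so `S ∪ N` is closed under `F`-adjacency;
`F` is connected and `S` nonempty, so `S ∪ N` is everything. -/
def HAM1_stmt : Prop :=
  ∀ (V : Type) [Fintype V] [DecidableEq V] (H : SimpleGraph V) (S N : Finset V),
    S.Nonempty → Disjoint S N → (∀ z ∈ S, ∀ v, H.Adj z v → v ∈ N) →
    (N.card < S.card ∨ (N.card = S.card ∧ ∃ v, v ∉ S ∧ v ∉ N)) → numHam H = 0

/-- HAM2: an independent set with one more neighbour and many twins.
Proof. Let `F` be as in `numHam`. For `v ∈ N` let `D v` be the number of `F`-neighbours of `v` in `S`;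
`∑ v ∈ N, D v = 2 |S| = 2 |N| - 2` and `D v ≤ 2`, so the set `X F = {v ∈ N : D v < 2}` has at most two
elements. By the hypothesis for the elements of `X F` there is a pair `(x, y)` outside `X F`;
choose it as a function of the set `X F`. `y ∈ N`, `D y = 2`, so the second alternative (`x ∈ S` is the
only neighbour of `y` in `S`) is impossible; so `x, y ∈ N`, `D x = D y = 2`, and `x`, `y` have the same
`H`-neighbours in `S`. Let `F'` be the image of `F` under the transposition of `x` and `y`. All
`F`-neighbours of `x` and `y` are in `S`, so `F' ≤ H`; `F'` is connected with two neighbours at every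
vertex; `X F' = X F`; so `F'' = F`. `F' ≠ F`: otherwise `x` and `y` have the same two `F`-neighbours
`z, z'`, and `{x, y, z, z'}` is closed under `F`-adjacency, so `|V| = 4`. So `F ↦ F'` is an involution
without fixed points. -/
def HAM2_stmt : Prop :=
  ∀ (V : Type) [Fintype V] [DecidableEq V] (H : SimpleGraph V) (S N : Finset V),
    5 ≤ Fintype.card V → Disjoint S N → (∀ z ∈ S, ∀ v, H.Adj z v → v ∈ N) →
    N.card = S.card + 1 →
    (∀ u u' : V, ∃ x y : V, x ≠ y ∧ x ≠ u ∧ x ≠ u' ∧ y ≠ u ∧ y ≠ u' ∧ y ∈ N ∧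
      ((x ∈ N ∧ ∀ z ∈ S, (H.Adj z x ↔ H.Adj z y)) ∨ (x ∈ S ∧ ∀ z ∈ S, (H.Adj z y ↔ z = x)))) →
    Even (numHam H)

/-- TPQ: the common part of TP1 and TP2.
Proof. `G` is connected (SYM.CNX). MNC gives `τ`; MIN `τ'`, `S` with `S.card + 1 ≤ nci τ`, EUW `q`, IDP:
`nci τ = S.card + 1`, `S` independent. Let `N = {v ∉ S : Shared G c v}`. For `z ∈ S` take `ψ` of ADJ: if
`z`, `v` are adjacent then `v ∉ S` and `ψ` is not constant at `v`, so two circuits pass through `v`
(`ψ` is constant on circuits): `Tw τ v`, `Shared G c v`; also `ψ` is not constant at `z`, so `z` is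
shared. So `S ∪ N` is the set of all shared vertices. `numHam` is odd by FORM (`C2Is _ _ 0` would
follow from an even number, `c2` depends only on the parity), `6 ≤ card V`. -/
def TPQ_stmt : Prop :=
  ∀ (V : Type) [Fintype V] [DecidableEq V] (G : SimpleGraph V) (b : ℕ) (c : Sym2 V → Fin b),
    FourRegular G → 7 ≤ Fintype.card V → (∃ v, ¬ C2Is (decompletion G v) (ZMod 2) 0) →
    EvenPartition G b c →
    ∃ (m : ℕ) (q : ℕ → V) (τ : G.Dart → G.Dart) (S N : Finset V), EW G m q ∧
      Odd (numHam (IG m q)) ∧ Comp c τ ∧ b ≤ nci τ ∧ nci τ = S.card + 1 ∧ Disjoint S N ∧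
      (∀ v, v ∈ S ∨ v ∈ N ↔ Shared G c v) ∧ (∀ z ∈ S, ∀ v, (IG m q).Adj z v → v ∈ N) ∧
      ∀ z ∈ S, ∃ ψ : G.Dart → Bool, (∀ d, ψ d.symm = ψ d) ∧ (∀ d, ψ (τ d) = ψ d) ∧
        (∀ w ∈ S, (∃ d d' : G.Dart, d.fst = w ∧ d'.fst = w ∧ ψ d ≠ ψ d') ↔ w = z) ∧
        ∀ v, v ∉ S → ((∃ d d' : G.Dart, d.fst = v ∧ d'.fst = v ∧ ψ d ≠ ψ d') ↔
          (IG m q).Adj z v)

/-- TP1: Proof: TPQ; `b' = nci τ ≥ b ≥ 2`, `|S| = b' - 1 ≥ 1`, `l = |S| + |N|`. HAM1: `|N| ≥ |S|`, and
`|N| = |S|` only if `S ∪ N` is everything. So `l ≥ 2 (b' - 1)`, and `l = 2 (b' - 1)` implies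
`l = card V`. If `b' = b` this is the claim, if `b' > b` then `l ≥ 2 b`. -/
def TP1_stmt : Prop :=
  ∀ (V : Type) [Fintype V] [DecidableEq V] (G : SimpleGraph V) (b : ℕ) (c : Sym2 V → Fin b),
    FourRegular G → 7 ≤ Fintype.card V → (∃ v, ¬ C2Is (decompletion G v) (ZMod 2) 0) →
    EvenPartition G b c → 2 ≤ b →
    2 * b ≤ Nat.card {v // Shared G c v} + 1 ∨
      (Nat.card {v // Shared G c v} + 2 = 2 * b ∧
        Nat.card {v // Shared G c v} = Fintype.card V)

/-- TP2: Proof. TPQ. As `l ≥ 2 (b' - 1)` (HAM1, see TP1) and `l = 2 b - 1`: `b' = b`, `|S| = b - 1`,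
`|N| = |S| + 1`. The circuits of `τ` are mapped onto the classes, `b` circuits and `b` classes: two
darts of the same class are in the same circuit. So every `ψ` of TPQ is a function of the class,
and for a pair with `Par G c x y`: `ψ` is constant at `x` iff it is constant at `y` (both vertices meet
the same classes). Suppose the claim fails: for all `u, u'` there is a pair `x ≠ y`, `Par G c x y`,
avoiding `u, u'`. Not both `x, y ∈ S`: the `ψ` of `x` is not constant at `x`, so not at `y`, so `y = x`.
If `x, y ∈ N`: they have the same neighbours in `S`. If `x ∈ S`, `y ∈ N`: `z ∈ S` is adjacent to `y` iff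
the `ψ` of `z` is not constant at `y` iff it is not constant at `x` iff `x = z`. If `x ∈ N`, `y ∈ S`:
exchange. HAM2: `numHam` is even, a contradiction. -/
def TP2_stmt : Prop :=
  ∀ (V : Type) [Fintype V] [DecidableEq V] (G : SimpleGraph V) (b : ℕ) (c : Sym2 V → Fin b),
    FourRegular G → 7 ≤ Fintype.card V → (∃ v, ¬ C2Is (decompletion G v) (ZMod 2) 0) →
    EvenPartition G b c → Nat.card {v // Shared G c v} + 1 = 2 * b →
    ∃ u u' : V, ∀ x y : V, x ≠ y → Par G c x y → x = u ∨ x = u' ∨ y = u ∨ y = u'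

/-- TLO: edge-disjoint even subgraphs which do not cover all edges.
Proof: the partition into `b = k + 1` classes: `c a = i` for the edges of `F i`, `c a = k` for the other
edges (even: 4 minus an even number). A shared vertex meets some `F i`. TP1 with `l ≤ |U|`. -/
def TLO_stmt : Prop :=
  ∀ (V : Type) [Fintype V] [DecidableEq V] (G : SimpleGraph V) (k : ℕ)
    (F : Fin k → SimpleGraph V), FourRegular G → 7 ≤ Fintype.card V →
    (∃ v, ¬ C2Is (decompletion G v) (ZMod 2) 0) → 1 ≤ k → (∀ i, F i ≤ G) →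
    (∀ i, ∃ u w, (F i).Adj u w) → (∀ i v, Even (Nat.card {w // (F i).Adj v w})) →
    (∀ i j, i ≠ j → ∀ u w, ¬ ((F i).Adj u w ∧ (F j).Adj u w)) →
    (∃ u w, G.Adj u w ∧ ∀ i, ¬ (F i).Adj u w) →
    2 * k + 1 ≤ Nat.card {v // ∃ i w, (F i).Adj v w} ∨
      (Nat.card {v // ∃ i w, (F i).Adj v w} = 2 * k ∧ 2 * k = Fintype.card V)

/-- TR2: a triangle meeting three other triangles.
Proof. Let `F i` be the triangle graph on `T i` (`u ≠ w`, `u, w ∈ T i`); they are edge-disjoint as
`|T i ∩ T j| ≤ 1`, and `|E(G)| ≥ 14 > 12`. Suppose some `c_2 ≠ 0`. A vertex lies in at most two of the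
`T i` (each uses two of its four neighbours), so the three vertices `a i` of `T 0 ∩ T i` are
different. If `T i` and `T j` (`1 ≤ i < j`) have a common vertex, it is not in `T 0`, and
`|T 0 ∪ T i ∪ T j| ≤ 6`: TLO with `k = 3` gives `7 ≤ 6` or `6 = card V`, impossible. So
`U = T 0 ∪ T 1 ∪ T 2 ∪ T 3` has 9 vertices. Take the partition into 5 classes: the four triangles
and the other edges (nonempty, even). The shared vertices are the elements of `U`: 9. TP2 with
`b = 5` gives `u, u'`; but the pairs `T i \ {a i}`, `i = 1, 2, 3`, are disjoint and parallel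
(classes `T i` and the rest): one of them avoids `u, u'`. -/
def TR2_stmt : Prop :=
  ∀ (V : Type) [Fintype V] [DecidableEq V] (G : SimpleGraph V) (T : Fin 4 → Finset V),
    FourRegular G → 7 ≤ Fintype.card V → (∀ i, G.IsNClique 3 (T i)) →
    (∀ i j, i ≠ j → (T i ∩ T j).card ≤ 1) → (∀ i, i ≠ 0 → (T 0 ∩ T i).Nonempty) →
    ∀ v, C2Is (decompletion G v) (ZMod 2) 0

/-- PR1: edges of prime ancestors lie in at most one triangle.
Proof: the number of common neighbours of `u`, `w` is at most 3 and not 2 (`triangles`). If it is 3,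
the set `X` of the common neighbours separates `{u, w}` from the other `card V - 5 ≥ 1` vertices:
`G.induce Xᶜ` is not connected, against `connectivity`. -/
def PR1_stmt : Prop :=
  ∀ (V : Type) [Fintype V] [DecidableEq V] (G : SimpleGraph V), PrimeAncestor G →
    6 ≤ Fintype.card V → ∀ u w, G.Adj u w → Nat.card {z // G.Adj u z ∧ G.Adj w z} ≤ 1

/-- TR3: Proof: if there are three different triangles `t₁, t₂, t₃` meeting `t` and different from `t`:
two different triangles have at most one common vertex (PR1: two common vertices are the ends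
of an edge with two common neighbours). TR2. -/
def TR3_stmt : Prop :=
  ∀ (V : Type) [Fintype V] [DecidableEq V] (G : SimpleGraph V), PrimeAncestor G →
    7 ≤ Fintype.card V → (∃ v, ¬ C2Is (decompletion G v) (ZMod 2) 0) →
    ∀ t : Finset V, G.IsNClique 3 t →
      Nat.card {t' : Finset V // G.IsNClique 3 t' ∧ t' ≠ t ∧ (t ∩ t').Nonempty} ≤ 2

end Pool.Agent.IH
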